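import Pool.Agent.Y329.CG.Stm

/-! Moving a compact set off itself. -/

set_option autoImplicit false

open Set

namespace Pool.Agent.Y407.CG

/-- A compact set can be moved off itself. -/
theorem done : Pool.Agent.Y329.CG.S_MV := by
  intro G hmono l r hl hr hfix K hK hKs
  rcases K.eq_empty_or_nonempty with rfl | hne
  · exact ⟨1, G.one_mem, by simp⟩
  have hk1 : sInf K ∈ K := hK.sInf_mem hne
  have hk2 : sSup K ∈ K := hK.sSup_mem hne
  obtain ⟨k1, hk1e⟩ : ∃ k1, k1 = sInf K := ⟨_, rfl⟩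
  obtain ⟨k2, hk2e⟩ : ∃ k2, k2 = sSup K := ⟨_, rfl⟩
  rw [← hk1e] at hk1
  rw [← hk2e] at hk2
  have hlo : ∀ x ∈ K, k1 ≤ x := fun x hx => by rw [hk1e]; exact csInf_le hK.bddBelow hx
  have hhi : ∀ x ∈ K, x ≤ k2 := fun x hx => by rw [hk2e]; exact le_csSup hK.bddAbove hx
  obtain ⟨S, hS⟩ : ∃ S : Set ℝ, S = {y | ∃ g ∈ G, g k1 = y} := ⟨_, rfl⟩
  have hmem : ∀ g ∈ G, g k1 ∈ S := fun g hg => by rw [hS]; exact ⟨g, hg, rfl⟩
  have hSne : S.Nonempty := ⟨k1, by simpa using hmem 1 G.one_mem⟩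
  have hub : ∀ y ∈ S, y ≤ r := by
    intro y hy
    rw [hS] at hy
    obtain ⟨g, hg, rfl⟩ := hy
    have := (hmono g hg) (hKs hk1).2
    rw [hr g hg] at this
    exact this.le
  have hbdd : BddAbove S := ⟨r, hub⟩
  have h1 : ∀ g ∈ G, sSup S ≤ g (sSup S) := by
    intro g hg
    apply csSup_le hSne
    intro y hy
    rw [hS] at hy
    obtain ⟨h, hh, rfl⟩ := hy
    have h2 : (g⁻¹ * h) k1 ≤ sSup S := le_csSup hbdd (hmem _ (G.mul_mem (G.inv_mem hg) hh))
    have h3 := (hmono g hg).monotone h2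
    rw [← Equiv.Perm.mul_apply, mul_inv_cancel_left] at h3
    exact h3
  have h2 : ∀ g ∈ G, g (sSup S) = sSup S := by
    intro g hg
    apply le_antisymm _ (h1 g hg)
    have h3 := (hmono g hg).monotone (h1 g⁻¹ (G.inv_mem hg))
    rw [← Equiv.Perm.mul_apply, mul_inv_cancel, Equiv.Perm.one_apply] at h3
    exact h3
  have h3 : sSup S = r := by
    apply le_antisymm (csSup_le hSne hub)
    by_contra hlt
    push Not at hlt
    have h4 : l < sSup S := lt_of_lt_of_le (hKs hk1).1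
      (le_csSup hbdd (by simpa using hmem 1 G.one_mem))
    obtain ⟨g, hg, hne'⟩ := hfix _ ⟨h4, hlt⟩
    exact hne' (h2 g hg)
  have h5 : k2 < sSup S := by rw [h3]; exact (hKs hk2).2
  obtain ⟨y, hy, hky⟩ := exists_lt_of_lt_csSup hSne h5
  rw [hS] at hy
  obtain ⟨u, hu, rfl⟩ := hy
  refine ⟨u, hu, ?_⟩
  rw [Set.disjoint_left]
  rintro _ ⟨x, hx, rfl⟩ hx'
  have h6 := (hmono u hu).monotone (hlo x hx)
  have h7 := hhi _ hx'
  linarith

end Pool.Agent.Y407.CG
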